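import Pool.Agent.Lib.PTX.YCont

/-!
# Stably regular groups are torsion-free (MP_16fe43_al)

A finite free resolution of the trivial module over the integral group ring of a finite group `C` has Euler
characteristic `1 = |C| * (∑ (-1)^i n_i)`. So Theorem W (no hypothesis of torsion-freeness) is contained in
Theorem Y.
-/

set_option autoImplicit false

namespace Pool.Agent.Lib.PTX

open Pool.Agent.Lib.MP_16fe43_al (StReg StV FFR RegGrp)
open Pool.Agent.Lib.BHS16 (TorsionFree Wh)
open Pool.Agent.Lib.PTW (VFix)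
open Pool.Agent.Lib.FPT (MFR FRes)
open Pool.Agent.Lib.SerE (ZG Pm trivPt)

theorem zg_finrank (C : Type) [Group C] [Finite C] (n : ℕ) :
    Module.Free ℤ (Fin n → ZG C) ∧ Module.Finite ℤ (Fin n → ZG C) ∧
      Module.finrank ℤ (Fin n → ZG C) = n * Nat.card C := by
  have : Fintype C := Fintype.ofFinite C
  have hf : Module.Finite ℤ (ZG C) := Module.Finite.of_basis (MonoidAlgebra.basis C ℤ)
  have hr : Module.finrank ℤ (ZG C) = Nat.card C := by
    rw [Module.finrank_eq_card_basis (MonoidAlgebra.basis C ℤ), Nat.card_eq_fintype_card]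
  refine ⟨inferInstance, inferInstance, ?_⟩
  rw [Module.finrank_pi_fintype]
  simp [hr]

/-- the rank over the integers of a module with a finite free resolution over the group ring of a finite group
is divisible by the order of the group -/
theorem dvd_finrank (C : Type) [Group C] [Finite C] (k : ℕ) : ∀ (M : Type) [AddCommGroup M]
    [Module (ZG C) M], FRes (ZG C) k M → Module.Finite ℤ M ∧
      (Nat.card C : ℤ) ∣ Module.finrank ℤ M := by
  induction k with
  | zero =>
    rintro M _ _ ⟨h1, h2⟩
    let b := Module.Free.chooseBasis (ZG C) M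
    let b' := b.reindex (Fintype.equivFin (Module.Free.ChooseBasisIndex (ZG C) M))
    let e : (Fin _ → ZG C) ≃ₗ[ℤ] M := b'.equivFun.symm.toAddEquiv.toIntLinearEquiv
    obtain ⟨h3, h4, h5⟩ := zg_finrank C (Fintype.card (Module.Free.ChooseBasisIndex (ZG C) M))
    refine ⟨Module.Finite.equiv e, ?_⟩
    rw [← e.finrank_eq, h5]
    push_cast
    exact Dvd.intro_left _ rfl
  | succ k ih =>
    rintro M _ _ ⟨n, f, hf, hk⟩
    obtain ⟨h1, h2⟩ := ih _ hk
    obtain ⟨h3, h4, h5⟩ := zg_finrank C n
    let f' : (Fin n → ZG C) →ₗ[ℤ] M := f.toAddMonoidHom.toIntLinearMap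
    have hf' : Function.Surjective f' := hf
    let e1 : LinearMap.ker f' ≃ₗ[ℤ] LinearMap.ker f :=
      ({ toFun := fun x => ⟨x.1, x.2⟩
         invFun := fun x => ⟨x.1, x.2⟩
         left_inv := fun _ => rfl
         right_inv := fun _ => rfl
         map_add' := fun _ _ => rfl } : LinearMap.ker f' ≃+ LinearMap.ker f).toIntLinearEquiv
    have h6 := Submodule.finrank_quotient_add_finrank (LinearMap.ker f')
    have h7 := (LinearMap.quotKerEquivOfSurjective f' hf').finrank_eq
    have h8 := e1.finrank_eq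
    refine ⟨Module.Finite.of_surjective f' hf', ?_⟩
    have h9 : (Module.finrank ℤ M : ℤ) = (n : ℤ) * Nat.card C -
        Module.finrank ℤ (LinearMap.ker f) := by
      rw [← h8, ← h7, eq_sub_iff_add_eq]
      exact_mod_cast h6.trans h5
    rw [h9]
    exact Int.dvd_sub (Dvd.intro_left _ rfl) h2

/-- **stably regular groups are torsion-free** -/
theorem torsionFree_of_stReg {L : Type} [Group L] (h : StReg L) : TorsionFree L := by
  intro g hg
  let C : Subgroup L := Subgroup.zpowers g
  have hC : Finite C := (finite_zpowers.2 hg).to_subtype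
  have hfg : Group.FG C := inferInstance
  have hr : FFR (ZG C) := (RegGrp.of_injective
    ((MonoidHom.inl L (Fin 0 → Multiplicative ℤ)).comp C.subtype)
    (fun a b hab => Subtype.ext (congrArg Prod.fst hab)) (h 0)).ffr
  let _ := trivPt C
  obtain ⟨k, hk⟩ := Pool.Agent.Lib.SerE.mfr_triv_of_ffr hfg hr
  obtain ⟨-, h1⟩ := dvd_finrank C k _ hk
  have h2 : Module.finrank ℤ (Pm PUnit.{1}) = 1 := by
    change Module.finrank ℤ (PUnit.{1} →₀ ℤ) = 1
    simp
  rw [h2] at h1
  have h3 : Nat.card C = 1 := by
    have h4 : (Nat.card C : ℤ) ∣ 1 := by exact_mod_cast h1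
    exact_mod_cast Int.eq_one_of_dvd_one (by positivity) h4
  have h5 : Subsingleton C := (Nat.card_eq_one_iff_unique.1 h3).1
  exact congrArg Subtype.val (Subsingleton.elim (⟨g, Subgroup.mem_zpowers g⟩ : C) 1)

/-- the groups in Theorem W are torsion-free -/
theorem torsionFree_of_w {G : Type} [Group G] (K : Subgroup G) {m : ℕ}
    (X : Fin m → Type) (T : ∀ i, SimpleGraph (X i)) [∀ i, MulAction K (X i)]
    (hT : ∀ i, (T i).IsTree)
    (hst : ∀ L : Subgroup G, VFix K X L → StReg L ∧ Subsingleton (Wh L)) : TorsionFree G := by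
  intro g hg
  have hC : Finite (Subgroup.zpowers g) := (finite_zpowers.2 hg).to_subtype
  let x : ∀ i, X i := fun i => (hT i).connected.nonempty.some
  have h1 : VFix K X (Subgroup.zpowers g) := by
    refine ⟨x, ⊥, fun a ha i => by rw [Subgroup.mem_bot.1 ha, one_smul], ?_⟩
    rw [Subgroup.map_bot, Subgroup.relIndex_bot_left]
    exact Nat.card_pos.ne'
  have h2 := torsionFree_of_stReg (hst _ h1).1
  have h3 := h2 ⟨g, Subgroup.mem_zpowers g⟩ (isOfFinOrder_of_finite _)
  exact congrArg Subtype.val h3

/-- Theorem W from Theorem Y -/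
theorem w_of_y {G : Type} [Group G] (K : Subgroup G) [K.FiniteIndex] {m : ℕ}
    (X : Fin m → Type) (T : ∀ i, SimpleGraph (X i)) [∀ i, MulAction K (X i)]
    (hT : ∀ i, (T i).IsTree)
    (hadj : ∀ i (g : K) (u v : X i), (T i).Adj u v → (T i).Adj (g • u) (g • v))
    (hst : ∀ L : Subgroup G, VFix K X L → StReg L ∧ Subsingleton (Wh L)) : StV G :=
  vy_main (torsionFree_of_w K X T hT hst) (vy_of_w K X T hT hadj hst)

end Pool.Agent.Lib.PTX
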